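import Pool.Agent.H502.PQ.Fin

/-!
# The parity of the `2`-adic Selmer groups of a newform and of its quadratic twists

Let `V` be a continuous representation of `G_ℚ`, of any dimension `n`, over a finite extension `F` of
`ℚ_2`, which is unramified outside `2`, residually unipotent and has an alternating pairing
`V × V → F(1)`; for example `V = V_{g,λ}` for ANY newform `g` of level a power of `2` (for example of
level one), of any even weight and with trivial character, and any place `λ` above `2`: the reduction
is unipotent by Tate's theorem. Let `L ⊆ H¹(ℚ_2, V)` be a subspace which is its own orthogonal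
complement for the cup product, for example `L = H¹_f(ℚ_2, V)`; then `dim L = 1` for a newform.

Let `d` be a prime number that is `7` modulo `16`, or the product of a prime number that is `5` modulo
`8` and of a prime number that is `3` modulo `8`, let `ε` be the quadratic character of `ℚ(√-d)` and
`V ⊗ ε` the twist, which is ramified at the prime divisors of `d`; the local conditions are `L` at `2`
and the usual ones at the odd primes. The theorem says

`dim Sel(ℚ, V) + dim Sel(ℚ, V ⊗ ε) ≤ dim L`, and the two sides have the same parity.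

## Consequences for the parity conjecture

* Let `g` be a newform of level `2 ^ r` and even weight `2k`, `λ` a place above `2`. Then exactly one
  of the two Bloch–Kato Selmer groups of `V_{g,λ}` and of `V_{g ⊗ ε,λ}` over `ℚ` has dimension one and
  the other one is zero, for EVERY `d` in the class. So the dimension of the Selmer group of the twist
  by `-d` is `0` or `1` and does not depend on `d`.
* The prime `2` splits in `ℚ(√-d)`, so the signs of the functional equations of `g` and of `g ⊗ ε` are
  different (Heegner hypothesis). So the parity statement of the question is true for `(g, λ)` if and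
  only if it is true for `(g ⊗ ε, λ)`, for one or for all `d` in the class.
* If `L(g, s)` does not vanish at the centre then `H¹_f(ℚ, V_{g,λ}) = 0` by Kato, so that
  `H¹_f(ℚ, V_{g ⊗ ε,λ})` has dimension one and the parity statement is true for all `(g ⊗ ε, λ)`, `λ`
  above `2`. If the central value of one `g ⊗ ε` is not zero then the Selmer groups of all
  `g ⊗ ε'`, `ε'` of the class, are zero and the Selmer group of `g` has dimension one.

These deductions use published theorems and are not part of the formal proof.

## The proof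

The theorem over `K = ℚ(√-d)`, for representations of `G_K` with a symmetric pairing of `V` and of its
conjugate, is `MP_b4b3cb_nt.ParityEveryDimension` of the library (helper76 and others): the Galois group
of the maximal `2`-extension of `K` unramified outside `2` is the maximal pro-`2` quotient of the Galois
group of `ℚ_2`. Here we restrict `V` to `G_K`, with the pairing `(x, y) ↦ Ω(x, c y)`, `c` a complex
conjugation, which is symmetric since `Ω` is alternating and `χ(c) = -1`, and identify the Selmer
group over `K` with the sum of the Selmer groups over `ℚ` of `V` and of `V ⊗ ε`, with all the local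
conditions.
-/

set_option autoImplicit false

namespace Pool.Agent.Results.MP_d4aa36_nt.TwistsAtTwo

open Pool.Agent.H502.PQ
open Pool.Agent.Y715.Gi (QB KK GK)
open Pool.Agent.Z384
open Pool.Agent.H76.PS
open Matrix IsLocalRing

/-- **Parity of the Selmer groups of a representation and of its quadratic twist.** -/
theorem result : ∀ d : ℕ, InClass d → ∀ s : AlgebraicClosure ℚ, s ^ 2 = -(d : AlgebraicClosure ℚ) →
    ∀ (A : Type) [CommRing A] [IsDomain A] [IsLocalRing A] [TopologicalSpace A]
      [IsTopologicalRing A] [Algebra ℤ_[2] A] [Module.Finite ℤ_[2] A] [Module.Free ℤ_[2] A],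
      IsAdic (maximalIdeal A) →
    ∀ (F : Type) [Field F] [Algebra A F] [IsFractionRing A F] (n : ℕ)
      (ρ : Gal(AlgebraicClosure ℚ/ℚ) →* GL (Fin n) A),
      Admissible ρ → ∀ Ω : Matrix (Fin n) (Fin n) F, SelfDual F ρ Ω →
    ∀ (ι : AlgebraicClosure ℚ →ₐ[ℚ] PadicAlgCl 2) (k : ℕ) (l : Fin k → Dec ι → Fin n → F),
      (∀ i, LocalCocycle F ρ ι (l i)) → Independent F ρ ι l → Lagrangian F ρ Ω ι l →
      ∃ r₁ r₂ : ℕ, SelmerDim A (mat F ρ) ι l r₁ ∧ SelmerDim A (twist F s ρ) ι l r₂ ∧
        r₁ + r₂ ≤ k ∧ Even (k - (r₁ + r₂)) := by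
  intro d hd s hs A _ _ _ _ _ _ _ _ hA F _ _ _ n ρ hρ Ω hΩ ι k l hl hind hL
  have hnoeth : IsNoetherianRing A := IsNoetherianRing.of_finite ℤ_[2] A
  have h2 : (2 : F) ≠ 0 := by
    have h3 : (2 : A) ≠ 0 := by
      intro h4
      have h5 : algebraMap ℤ_[2] A 2 = algebraMap ℤ_[2] A 0 := by
        rw [map_ofNat, map_zero]; exact h4
      have h6 := FaithfulSMul.algebraMap_injective ℤ_[2] A h5
      exact two_ne_zero h6
    intro h4
    apply h3
    apply IsFractionRing.injective A F
    rw [map_ofNat, map_zero]
    exact h4
  obtain ⟨c, hc⟩ := exists_isConj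
  obtain ⟨cj, hcj'⟩ := exists_cj hs hd hc
  have D : Dt s d c cj := ⟨hs, hd, hc, hcj'⟩
  obtain ⟨r, hr, hev, z, hz, hzi, hzs⟩ := parity' (s := s) hs hd
    (χ := fun σ => cyc (rsc s σ)) isCyc hc (cj := cj) hcj' hA (ρ := rK s ρ) (rp_rK hρ)
    (J_symm hΩ hc) (J_inv hΩ D) ι (fun i δ => l i (up s ι δ))
    (fun i => ⟨fun δ δ' => (hl i).mul (up s ι δ) (up s ι δ'), by
      obtain ⟨a, b, ha, hb, hab⟩ := (hl i).cont
      exact ⟨a, fun δ => b (up s ι δ), ha, hb.comp (up_cont ι), fun g i => hab _ i⟩⟩)
    (fun a ⟨v, hv⟩ => hind a ⟨v, fun δ => by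
      have h3 := hv (dn D ι δ)
      rw [act_rK, dn_rsc] at h3
      simp only [up_dn] at h3
      exact h3⟩)
  obtain ⟨hfin, hrank⟩ := finrank_of_basis (wk D ρ ι l) (cobK F s ρ) z
    (fun t => (mem_wk D ι hL _).2 (hz t))
    (fun a ⟨v, hv⟩ => hzi a ⟨v, fun σ => by
      have h3 := hv σ
      rw [Finset.sum_apply] at h3
      exact h3⟩)
    (fun y hy => by
      obtain ⟨a, v, h⟩ := hzs y ((mem_wk D ι hL _).1 hy)
      refine ⟨a, v, fun σ => ?_⟩
      rw [Pi.sub_apply, h σ, Finset.sum_apply]
      show ∑ t, a t • z t σ + (ac F ρ (rsc s σ) v - v) - ∑ t, a t • z t σ = _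
      rw [add_sub_cancel_left])
  obtain ⟨e⟩ := descent (A := A) D hρ h2 ι l
  have hfin2 : Module.Finite F
      (SelmerGroup A (mat F ρ) ι l × SelmerGroup A (twist F s ρ) ι l) :=
    Module.Finite.equiv e.symm
  have hf1 : Module.Finite F (SelmerGroup A (mat F ρ) ι l) :=
    Module.Finite.of_surjective (LinearMap.fst F _ (SelmerGroup A (twist F s ρ) ι l))
      LinearMap.fst_surjective
  have hf2 : Module.Finite F (SelmerGroup A (twist F s ρ) ι l) :=
    Module.Finite.of_surjective (LinearMap.snd F (SelmerGroup A (mat F ρ) ι l) _)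
      LinearMap.snd_surjective
  have hsum : Module.finrank F (SelmerGroup A (mat F ρ) ι l) +
      Module.finrank F (SelmerGroup A (twist F s ρ) ι l) = r := by
    rw [← Module.finrank_prod, ← hrank]
    exact LinearEquiv.finrank_eq e
  refine ⟨_, _, ⟨hf1, rfl⟩, ⟨hf2, rfl⟩, ?_, ?_⟩
  · rw [hsum]
    exact hr
  · rw [hsum]
    exact hev

end Pool.Agent.Results.MP_d4aa36_nt.TwistsAtTwo
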